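import Pool.Agent.Helper70.ML.St3

/-!
Project ML (MP_a2f62e_al), module PGEN: generation of the special linear group by the positive root
elements and the simple monomial elements.
-/

set_option autoImplicit false

namespace Pool.Agent.Helper27.ML

open Pool.Agent.Helper70.ML Pool.Agent.Helper75.MX

theorem hPGEN (hPMON : StPMON) (hPTVR : StPTVR) : StPGEN := by
  classical
  intro n F _ hn K hU hW
  obtain ⟨pmul, -, pconj, -, -, -, pn, ph⟩ := hPMON n F
  obtain ⟨-, -, tcmm, -, -⟩ := hPTVR n F
  -- step 1: simple negative root elements
  have h1 : ∀ r s : Fin n, (s : ℕ) = r + 1 → ∀ a : F, tv s r a ∈ K := by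
    intro r s hrs a
    have hne : r ≠ s := by
      intro h
      rw [h] at hrs
      omega
    have hlt : r < s := by
      rw [Fin.lt_def]
      omega
    have hw := hW r s hrs
    have hm := pn r s 1 hne one_ne_zero
    rw [inv_one] at hm
    have hc := pconj _ _ _ hm r s (-a) hne
    have e1 : wc r s (1 : F) r = -1 := by simp [wc]
    have e2 : wc r s (1 : F) s = 1 := by simp [wc, hne.symm]
    rw [Equiv.swap_apply_left, Equiv.swap_apply_right, e1, e2] at hc
    have e3 : (-1 : F) * (1 : F)⁻¹ * -a = a := by simp
    rw [e3] at hc
    rw [← hc]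
    exact K.mul_mem (K.mul_mem hw (hU r s (-a) hlt)) (K.inv_mem hw)
  -- step 2: all negative root elements
  have h2 : ∀ d : ℕ, ∀ i j : Fin n, (j : ℕ) = i + d + 1 → ∀ a : F, tv j i a ∈ K := by
    intro d
    induction d with
    | zero =>
      intro i j hij a
      exact h1 i j (by omega) a
    | succ d ih =>
      intro i j hij a
      have hj := j.2
      set k : Fin n := ⟨i + d + 1, by omega⟩ with hk
      have hkv : (k : ℕ) = i + d + 1 := rfl
      have hjk : j ≠ k := by
        intro h
        have := congrArg Fin.val h
        omega
      have hki : k ≠ i := by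
        intro h
        have := congrArg Fin.val h
        omega
      have hji : j ≠ i := by
        intro h
        have := congrArg Fin.val h
        omega
      have m1 : tv j k a ∈ K := h1 k j (by omega) a
      have m2 : tv k i (1 : F) ∈ K := ih i k hkv 1
      have hc := tcmm j k i a 1 hjk hki hji
      rw [mul_one] at hc
      rw [← hc]
      exact K.mul_mem (K.mul_mem (K.mul_mem m1 m2) (K.inv_mem m1)) (K.inv_mem m2)
  have hT : ∀ (i j : Fin n) (a : F), i ≠ j → tv i j a ∈ K := by
    intro i j a hij
    rcases lt_or_gt_of_ne hij with h | h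
    · exact hU i j a h
    · have h' : (j : ℕ) < i := h
      exact h2 (i - j - 1) j i (by omega) a
  -- step 3: the torus
  have hN : ∀ (i j : Fin n) (a : F), i ≠ j →
      tv i j a * tv j i (-a⁻¹) * tv i j a ∈ K := by
    intro i j a hij
    exact K.mul_mem (K.mul_mem (hT i j a hij) (hT j i _ hij.symm)) (hT i j a hij)
  set o : Fin n := ⟨0, by omega⟩ with ho
  have hD : ∀ m : ℕ, ∀ (g : SLn n F) (c : Fin n → F), Mono g 1 c →
      (Finset.univ.filter (fun j => j ≠ o ∧ c j ≠ 1)).card ≤ m → g ∈ K := by
    have hbase : ∀ (g : SLn n F) (c : Fin n → F), Mono g 1 c →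
        (∀ j, j ≠ o → c j = 1) → g ∈ K := by
      intro g c hg hc
      have hgd : g.1 = Matrix.diagonal c := by
        ext i j
        rw [hg.2 i j, Matrix.diagonal_apply]
        by_cases hij : i = j
        · simp [hij]
        · simp [hij]
      have hdet : ∏ j, c j = 1 := by
        rw [← Matrix.det_diagonal, ← hgd]
        exact g.2
      have hco : c o = 1 := by
        rw [← hdet]
        refine (Finset.prod_eq_single o ?_ ?_).symm
        · intro j _ hj
          exact hc j hj
        · intro h
          exact absurd (Finset.mem_univ o) h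
      have hc1 : c = fun _ => 1 := by
        funext j
        by_cases hj : j = o
        · rw [hj, hco]
        · exact hc j hj
      have hg1 : g = 1 := by
        apply Subtype.ext
        rw [hgd, hc1]
        simp
      rw [hg1]
      exact K.one_mem
    intro m
    induction m with
    | zero =>
      intro g c hg hm
      refine hbase g c hg ?_
      intro j hj
      by_contra h
      have : j ∈ Finset.univ.filter (fun j => j ≠ o ∧ c j ≠ 1) := by simp [hj, h]
      have h0 := Finset.card_pos.2 ⟨j, this⟩
      omega
    | succ m ih =>
      intro g c hg hm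
      by_cases hall : ∀ j, j ≠ o → c j = 1
      · exact hbase g c hg hall
      · push Not at hall
        obtain ⟨j, hjo, hj1⟩ := hall
        have hj0 := hg.1 j
        set h : SLn n F := tv o j (c j) * tv j o (-(c j)⁻¹) * tv o j (c j) *
          (tv o j 1 * tv j o (-1) * tv o j 1)⁻¹ with hh
        have hhm : Mono h 1 (hc o j (c j)) := ph o j (c j) hjo.symm hj0
        have hhK : h ∈ K := by
          have a1 := hN o j (c j) hjo.symm
          have a2 := hN o j 1 hjo.symm
          rw [inv_one] at a2
          exact K.mul_mem a1 (K.inv_mem a2)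
        have hgh := pmul g h 1 1 c _ hg hhm
        rw [one_mul] at hgh
        have hmem : g * h ∈ K := by
          refine ih (g * h) _ hgh ?_
          have hsub : Finset.univ.filter (fun k => k ≠ o ∧
              c ((1 : Equiv.Perm (Fin n)) k) * hc o j (c j) k ≠ 1) ⊆
              (Finset.univ.filter (fun k => k ≠ o ∧ c k ≠ 1)).erase j := by
            intro k hk
            rw [Finset.mem_filter] at hk
            obtain ⟨-, hko, hk1⟩ := hk
            rw [Equiv.Perm.one_apply] at hk1
            have hkj : k ≠ j := by
              intro e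
              apply hk1
              rw [e]
              simp [hc, hjo, hj0]
            rw [Finset.mem_erase, Finset.mem_filter]
            refine ⟨hkj, Finset.mem_univ k, hko, ?_⟩
            intro e
            apply hk1
            rw [e]
            simp [hc, hko, hkj]
          have hcard := Finset.card_le_card hsub
          have hjm : j ∈ Finset.univ.filter (fun k => k ≠ o ∧ c k ≠ 1) := by simp [hjo, hj1]
          rw [Finset.card_erase_of_mem hjm] at hcard
          omega
        have : g = g * h * h⁻¹ := by group
        rw [this]
        exact K.mul_mem hmem (K.inv_mem hhK)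
  -- step 4: everything
  have hL : ∀ L : List (Matrix.TransvectionStruct (Fin n) F),
      ∃ u ∈ K, u.1 = (L.map Matrix.TransvectionStruct.toMatrix).prod := by
    intro L
    induction L with
    | nil => exact ⟨1, K.one_mem, by simp⟩
    | cons t L ih =>
      obtain ⟨u, hu, hue⟩ := ih
      refine ⟨tv t.i t.j t.c * u, K.mul_mem (hT t.i t.j t.c t.hij) hu, ?_⟩
      have e : (tv t.i t.j t.c).1 = t.toMatrix := by
        have e0 : tv t.i t.j t.c = ⟨Matrix.transvection t.i t.j t.c,
            Matrix.det_transvection_of_ne t.i t.j t.hij t.c⟩ := dif_pos t.hij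
        rw [e0]
        rfl
      rw [Matrix.SpecialLinearGroup.coe_mul, hue, e]
      simp
  rw [eq_top_iff]
  intro g _
  obtain ⟨L, L', D, hg⟩ := Matrix.Pivot.exists_list_transvec_mul_diagonal_mul_list_transvec g.1
  obtain ⟨u, hu, hue⟩ := hL L
  obtain ⟨v, hv, hve⟩ := hL L'
  have hdet : (Matrix.diagonal D).det = 1 := by
    have := congrArg Matrix.det hg
    rw [Matrix.det_mul, Matrix.det_mul, Matrix.TransvectionStruct.det_toMatrix_prod,
      Matrix.TransvectionStruct.det_toMatrix_prod, g.2] at this
    simpa using this.symm
  have hprod : ∏ j, D j = 1 := by rw [← Matrix.det_diagonal, hdet]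
  set d : SLn n F := ⟨Matrix.diagonal D, hdet⟩ with hd
  have hdm : Mono d 1 D := by
    refine ⟨fun j hj => ?_, fun i j => ?_⟩
    · rw [Finset.prod_eq_zero (Finset.mem_univ j) hj] at hprod
      exact zero_ne_one hprod
    · change Matrix.diagonal D i j = _
      rw [Matrix.diagonal_apply]
      by_cases hij : i = j
      · simp [hij]
      · simp [hij]
  have hdK : d ∈ K := hD _ d D hdm le_rfl
  have : g = u * d * v := by
    apply Subtype.ext
    rw [Matrix.SpecialLinearGroup.coe_mul, Matrix.SpecialLinearGroup.coe_mul, hue, hve, hg]
  rw [this]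
  exact K.mul_mem (K.mul_mem hu hdK) hv

end Pool.Agent.Helper27.ML
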